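import Pool.Agent.Helper61.QT.GoalsH

/-!
# Project QT (MP_0ebdb3_gt), packet DAT2: the data of the ODE part
-/

set_option autoImplicit false

open Set ComplexConjugate

namespace Pool.Agent.Helper13.QT

open Pool.Agent.Helper61 Pool.Agent.Helper61.QG Pool.Agent.Helper61.QT
open Pool.Agent.Helper61.QS (V En rk R4)
open Pool.Agent.Helper61.QM (Model W2 Mab pol2 act2)

/-- PACKET DAT2 -/
theorem goalDAT2 (hPL : G_PL2) : G_DAT2 := by
  intro a b hab k n e B hB hF
  have hab1 : a * b ≠ 1 := by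
    rcases hab with h | ⟨h1, h2⟩
    · rw [h, mul_zero]
      norm_num
    · rw [h1, h2]
      norm_num
  obtain ⟨hpol, hfd⟩ := hPL a b hab1
  have hsm := hpol.smooth
  have hX := hpol.mem
  have hT := hpol.tan
  have hfsm : ContDiff ℝ 2 (fderiv ℝ pol2) := hsm.fderiv_right (by norm_num)
  have hBp : ContDiff ℝ 2 (fun x => B (pol2 x)) := (hB.smooth_B.comp hsm).of_le (by norm_num)
  have hep : ContDiff ℝ 3 (fun x => e (pol2 x)) := hB.smooth_e.comp hsm
  have hbb : ContDiff ℝ 2 (bG B pol2) := hBp.clm_apply (hfsm.clm_apply contDiff_const)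
  have hcc : ContDiff ℝ 2 (cG B pol2) := hBp.clm_apply (hfsm.clm_apply contDiff_const)
  have hchain : ∀ x c, fderiv ℝ (fun x => e (pol2 x)) x c =
      B (pol2 x) (fderiv ℝ pol2 x c) * e (pol2 x) - e (pol2 x) * B (pol2 x) (fderiv ℝ pol2 x c) := by
    intro x c
    have h1 : fderiv ℝ (fun x => e (pol2 x)) x = (fderiv ℝ e (pol2 x)).comp (fderiv ℝ pol2 x) := by
      apply fderiv_comp x
      · exact (hB.smooth_e.differentiable (by norm_num)) _
      · exact (hsm.differentiable (by norm_num)) _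
    rw [h1, ContinuousLinearMap.comp_apply, hB.par _ (hX x) _ (hT x c)]
  have hexp : ∀ t : ℝ, Complex.exp (((t + 2 * Real.pi : ℝ) : ℂ) * Complex.I) =
      Complex.exp ((t : ℂ) * Complex.I) := by
    intro t
    push_cast
    rw [add_mul, Complex.exp_add, Complex.exp_two_pi_mul_I, mul_one]
  have pα : ∀ r s α β : ℝ, pol2 (r, s, α + 2 * Real.pi, β) = pol2 (r, s, α, β) := by
    intro r s α β
    simp only [pol2]
    rw [hexp]
  have pβ : ∀ r s α β : ℝ, pol2 (r, s, α, β + 2 * Real.pi) = pol2 (r, s, α, β) := by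
    intro r s α β
    simp only [pol2]
    rw [hexp]
  have fα : ∀ (r s α β : ℝ) (c : R4), fderiv ℝ pol2 (r, s, α + 2 * Real.pi, β) c =
      fderiv ℝ pol2 (r, s, α, β) c := by
    intro r s α β c
    rw [hfd, hfd]
    simp only
    rw [hexp]
  have fβ : ∀ (r s α β : ℝ) (c : R4), fderiv ℝ pol2 (r, s, α, β + 2 * Real.pi) c =
      fderiv ℝ pol2 (r, s, α, β) c := by
    intro r s α β c
    rw [hfd, hfd]
    simp only
    rw [hexp]
  refine
    { smε := hep.of_le (by norm_num)
      smp := hbb.of_le (by norm_num)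
      smq := hcc.of_le (by norm_num)
      idem := fun x => hB.idem _ (hX x)
      symm := fun x => hB.symm _ (hX x)
      skp := fun x => hB.skew _ (hX x) _ (hT x _)
      skq := fun x => hB.skew _ (hX x) _ (hT x _)
      dr := fun x => hchain x _
      ds := fun x => hchain x _
      flat := ?_
      perα := ?_
      perβ := ?_
      r0 := ?_
      r1 := ?_
      s0 := ?_
      s1 := ?_ }
  · have hcont : Continuous (fun x => FG B pol2 x * e (pol2 x)) := by
      have c1 : Continuous (fun x => fderiv ℝ (cG B pol2) x (1, 0, 0, 0)) :=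
        (hcc.continuous_fderiv (by norm_num)).clm_apply continuous_const
      have c2 : Continuous (fun x => fderiv ℝ (bG B pol2) x (0, 1, 0, 0)) :=
        (hbb.continuous_fderiv (by norm_num)).clm_apply continuous_const
      have c3 := hbb.continuous
      have c4 := hcc.continuous
      have c5 := hep.continuous
      unfold FG
      exact (((c1.sub c2).sub ((c3.mul c4).sub (c4.mul c3)))).mul c5
    have h0 : (fun x => FG B pol2 x * e (pol2 x)) = fun _ => 0 :=
      hcont.ext_on hpol.dense continuous_const (fun x hx => hF x hx)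
    intro x
    exact congrFun h0 x
  · intro r s α β
    refine ⟨?_, ?_, ?_⟩
    · simp only [pα]
    · simp only [bG, fα, pα]
    · simp only [cG, fα, pα]
  · intro r s α β
    refine ⟨?_, ?_, ?_⟩
    · simp only [pβ]
    · simp only [bG, fβ, pβ]
    · simp only [cG, fβ, pβ]
  · intro s α β
    have p0 : pol2 (0, s, α, β) = pol2 (0, s, 0, β) := by
      simp [pol2]
    have f0 : fderiv ℝ pol2 (0, s, α, β) (0, 1, 0, 0) =
        fderiv ℝ pol2 (0, s, 0, β) (0, 1, 0, 0) := by
      rw [hfd, hfd]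
      simp
    refine ⟨?_, ?_⟩
    · simp only [p0]
    · simp only [cG, f0, p0]
  · intro s α β
    have hz : ‖Complex.exp ((α : ℂ) * Complex.I)‖ = 1 := Complex.norm_exp_ofReal_mul_I α
    have hw : ‖Complex.exp (((-(a * α) : ℝ) : ℂ) * Complex.I)‖ = 1 :=
      Complex.norm_exp_ofReal_mul_I _
    have hm1 : Complex.exp ((α : ℂ) * Complex.I) ^ a *
        Complex.exp (((-(a * α) : ℝ) : ℂ) * Complex.I) = 1 := by
      rw [← Complex.exp_int_mul, ← Complex.exp_add, ← Complex.exp_zero]
      congr 1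
      push_cast
      ring
    have hm2 : Complex.exp (((-(a * α) : ℝ) : ℂ) * Complex.I) *
        Complex.exp (((β + a * α : ℝ) : ℂ) * Complex.I) = Complex.exp ((β : ℂ) * Complex.I) := by
      rw [← Complex.exp_add]
      congr 1
      push_cast
      ring
    have p1 : pol2 (Real.pi / 2, s, α, β) =
        act2 a b (Complex.exp ((α : ℂ) * Complex.I))
          (Complex.exp (((-(a * α) : ℝ) : ℂ) * Complex.I))
          (pol2 (Real.pi / 2, s, 0, β + a * α)) := by
      simp only [pol2, act2]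
      rw [hm1, ← mul_assoc (Complex.exp (((-(a * α) : ℝ) : ℂ) * Complex.I)), hm2]
      simp
    have f1 : fderiv ℝ pol2 (Real.pi / 2, s, α, β) (0, 1, 0, 0) =
        act2 a b (Complex.exp ((α : ℂ) * Complex.I))
          (Complex.exp (((-(a * α) : ℝ) : ℂ) * Complex.I))
          (fderiv ℝ pol2 (Real.pi / 2, s, 0, β + a * α) (0, 1, 0, 0)) := by
      rw [hfd, hfd]
      simp only [act2]
      rw [hm1, ← mul_assoc (Complex.exp (((-(a * α) : ℝ) : ℂ) * Complex.I)), hm2]
      simp
    have hg : act2 a b (Complex.exp ((α : ℂ) * Complex.I))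
        (Complex.exp (((-(a * α) : ℝ) : ℂ) * Complex.I)) ∈ (Mab a b).Γ :=
      ⟨_, _, hz, hw, rfl⟩
    refine ⟨?_, ?_⟩
    · show e (pol2 (Real.pi / 2, s, α, β)) = e (pol2 (Real.pi / 2, s, 0, β + a * α))
      rw [p1]
      exact hB.inv _ hg _ (hX _)
    · simp only [cG]
      rw [p1, f1]
      exact hB.inv_B _ hg _ (hX _) _ (hT _ _)
  · intro r α β
    have p0 : pol2 (r, 0, α, β) = pol2 (r, 0, α, 0) := by
      simp [pol2]
    have f0 : fderiv ℝ pol2 (r, 0, α, β) (1, 0, 0, 0) =
        fderiv ℝ pol2 (r, 0, α, 0) (1, 0, 0, 0) := by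
      rw [hfd, hfd]
      simp
    refine ⟨?_, ?_⟩
    · simp only [p0]
    · simp only [bG, f0, p0]
  · intro r α β
    have hz : ‖Complex.exp (((-(b * β) : ℝ) : ℂ) * Complex.I)‖ = 1 :=
      Complex.norm_exp_ofReal_mul_I _
    have hw : ‖Complex.exp ((β : ℂ) * Complex.I)‖ = 1 := Complex.norm_exp_ofReal_mul_I β
    have hm1 : Complex.exp (((-(b * β) : ℝ) : ℂ) * Complex.I) *
        Complex.exp ((β : ℂ) * Complex.I) ^ b = 1 := by
      rw [← Complex.exp_int_mul, ← Complex.exp_add, ← Complex.exp_zero]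
      congr 1
      push_cast
      ring
    have hm2 : Complex.exp (((-(b * β) : ℝ) : ℂ) * Complex.I) *
        Complex.exp (((α + b * β : ℝ) : ℂ) * Complex.I) = Complex.exp ((α : ℂ) * Complex.I) := by
      rw [← Complex.exp_add]
      congr 1
      push_cast
      ring
    have p1 : pol2 (r, Real.pi / 2, α, β) =
        act2 a b (Complex.exp (((-(b * β) : ℝ) : ℂ) * Complex.I))
          (Complex.exp ((β : ℂ) * Complex.I))
          (pol2 (r, Real.pi / 2, α + b * β, 0)) := by
      simp only [pol2, act2]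
      rw [hm1, ← mul_assoc (Complex.exp (((-(b * β) : ℝ) : ℂ) * Complex.I)), hm2]
      simp
    have f1 : fderiv ℝ pol2 (r, Real.pi / 2, α, β) (1, 0, 0, 0) =
        act2 a b (Complex.exp (((-(b * β) : ℝ) : ℂ) * Complex.I))
          (Complex.exp ((β : ℂ) * Complex.I))
          (fderiv ℝ pol2 (r, Real.pi / 2, α + b * β, 0) (1, 0, 0, 0)) := by
      rw [hfd, hfd]
      simp only [act2]
      rw [hm1, ← mul_assoc (Complex.exp (((-(b * β) : ℝ) : ℂ) * Complex.I)), hm2]
      simp
    have hg : act2 a b (Complex.exp (((-(b * β) : ℝ) : ℂ) * Complex.I))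
        (Complex.exp ((β : ℂ) * Complex.I)) ∈ (Mab a b).Γ :=
      ⟨_, _, hz, hw, rfl⟩
    refine ⟨?_, ?_⟩
    · show e (pol2 (r, Real.pi / 2, α, β)) = e (pol2 (r, Real.pi / 2, α + b * β, 0))
      rw [p1]
      exact hB.inv _ hg _ (hX _)
    · simp only [bG]
      rw [p1, f1]
      exact hB.inv_B _ hg _ (hX _) _ (hT _ _)

end Pool.Agent.Helper13.QT
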